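import Mathlib

/-!
# Automorphism polytopes and their linear descriptions
-/

namespace Pool.Agent.Hhelper69.AutXC

/-- The automorphism polytope of a graph `G`: the convex hull of the permutation matrices of all
automorphisms of `G`. -/
def autPolytope {V : Type} [DecidableEq V] (G : SimpleGraph V) : Set (V × V → ℝ) :=
  convexHull ℝ {x | ∃ φ : G ≃g G, x = fun e => if φ e.1 = e.2 then 1 else 0}

/-- `P` is the projection to the `x`-coordinates of the solution set of a system of `r` linear
inequalities `A x + B y ≤ c` and of finitely many linear equations `E x + F y = g` in the variables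
`x` and in `l` further variables `y`. -/
def HasFormulation {ι : Type} [Fintype ι] (P : Set (ι → ℝ)) (r : ℕ) : Prop :=
  ∃ (l k : ℕ) (A : Matrix (Fin r) ι ℝ) (B : Matrix (Fin r) (Fin l) ℝ) (c : Fin r → ℝ)
    (E : Matrix (Fin k) ι ℝ) (F : Matrix (Fin k) (Fin l) ℝ) (g : Fin k → ℝ),
    P = {x | ∃ y : Fin l → ℝ, (∀ i, (A.mulVec x + B.mulVec y) i ≤ c i) ∧
      E.mulVec x + F.mulVec y = g}

end Pool.Agent.Hhelper69.AutXC
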