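import Mathlib
import Pool.Agent.Hhelper69.AutXC.Defs

/-!
# The graph: paths of pairs of vertices with four-element gadgets
-/

namespace Pool.Agent.Hhelper69.AutXC

/-- The vertices: `U p q α`, `Y p q α`, `O p q α β`, and `k` isolated vertices. -/
abbrev Vt (m k : ℕ) : Type :=
  (Fin m × Fin m × Bool) ⊕ (Fin m × Fin m × Bool) ⊕ (Fin m × Fin m × Bool × Bool) ⊕ Fin k

instance decEqPairs (m : ℕ) : DecidableEq (Fin m × Fin m × Bool) := inferInstance

instance decEqQuads (m : ℕ) : DecidableEq (Fin m × Fin m × Bool × Bool) := inferInstance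

instance decEqVt (m k : ℕ) : DecidableEq (Vt m k) :=
  haveI h1 : DecidableEq ((Fin m × Fin m × Bool × Bool) ⊕ Fin k) := inferInstance
  haveI h2 : DecidableEq ((Fin m × Fin m × Bool) ⊕ (Fin m × Fin m × Bool × Bool) ⊕ Fin k) :=
    @instDecidableEqSum _ _ _ h1
  @instDecidableEqSum _ _ _ h2

variable {m k : ℕ}

/-- Pair vertices on the path of `p`. -/
@[match_pattern] abbrev U (p q : Fin m) (α : Bool) : Vt m k := Sum.inl (p, q, α)
/-- Intermediate vertices. -/
@[match_pattern] abbrev Y (p q : Fin m) (α : Bool) : Vt m k := Sum.inr (Sum.inl (p, q, α))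
/-- Gadget vertices. -/
@[match_pattern] abbrev O (p q : Fin m) (α β : Bool) : Vt m k :=
  Sum.inr (Sum.inr (Sum.inl (p, q, α, β)))
/-- Isolated vertices. -/
@[match_pattern] abbrev R (i : Fin k) : Vt m k := Sum.inr (Sum.inr (Sum.inr i))

/-- One direction of the adjacency relation. -/
def Ed : Vt m k → Vt m k → Prop
  | U p q α, U p' q' α' => p = p' ∧ q'.val = q.val + 1 ∧ α = α'
  | U p q α, Y p' q' α' => p = p' ∧ q = q' ∧ α = α'
  | Y p q α, O p' q' α' β' =>
      p' < q' ∧ ((p = p' ∧ q = q' ∧ α = α') ∨ (p = q' ∧ q = p' ∧ α = β'))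
  | _, _ => False

/-- The graph. -/
def Gr (m k : ℕ) : SimpleGraph (Vt m k) := SimpleGraph.fromRel Ed

theorem Ed_irrefl (v : Vt m k) : ¬ Ed v v := by
  rcases v with ⟨p, q, α⟩ | ⟨p, q, α⟩ | ⟨p, q, α, β⟩ | i <;> simp [Ed]

theorem adj_iff (u v : Vt m k) : (Gr m k).Adj u v ↔ Ed u v ∨ Ed v u := by
  rw [Gr, SimpleGraph.fromRel_adj]
  constructor
  · exact fun h => h.2
  · intro h
    refine ⟨?_, h⟩
    rintro rfl
    rcases h with h | h <;> exact Ed_irrefl _ h

/-- The colour of a vertex. -/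
def col : Vt m k → (Fin m × Fin m) ⊕ (Fin m × Fin m) ⊕ (Fin m × Fin m) ⊕ Unit
  | U p q _ => Sum.inl (p, q)
  | Y p q _ => Sum.inr (Sum.inl (p, q))
  | O p q _ _ => Sum.inr (Sum.inr (Sum.inl (p, q)))
  | R _ => Sum.inr (Sum.inr (Sum.inr ()))

/-- The automorphism attached to a vector of bits. -/
def act (b : Fin m → Bool) : Vt m k → Vt m k
  | U p q α => U p q (xor α (b p))
  | Y p q α => Y p q (xor α (b p))
  | O p q α β => O p q (xor α (b p)) (xor β (b q))
  | R i => R i

theorem act_act (b : Fin m → Bool) (v : Vt m k) : act b (act b v) = v := by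
  rcases v with ⟨p, q, α⟩ | ⟨p, q, α⟩ | ⟨p, q, α, β⟩ | i <;> simp [act]

theorem Ed_act (b : Fin m → Bool) (u v : Vt m k) (h : Ed u v) : Ed (act b u) (act b v) := by
  rcases u with ⟨p, q, α⟩ | ⟨p, q, α⟩ | ⟨p, q, α, β⟩ | i <;>
    rcases v with ⟨p', q', α'⟩ | ⟨p', q', α'⟩ | ⟨p', q', α', β'⟩ | j <;>
    simp only [Ed, act] at h ⊢
  · obtain ⟨rfl, h2, rfl⟩ := h
    exact ⟨rfl, h2, rfl⟩
  · obtain ⟨rfl, rfl, rfl⟩ := h
    exact ⟨rfl, rfl, rfl⟩
  · obtain ⟨h1, (⟨rfl, rfl, rfl⟩ | ⟨rfl, rfl, rfl⟩)⟩ := h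
    · exact ⟨h1, Or.inl ⟨rfl, rfl, rfl⟩⟩
    · exact ⟨h1, Or.inr ⟨rfl, rfl, rfl⟩⟩

/-- The automorphism attached to a vector of bits, as an automorphism. -/
def actIso (m k : ℕ) (b : Fin m → Bool) : Gr m k ≃g Gr m k where
  toFun := act b
  invFun := act b
  left_inv := act_act b
  right_inv := act_act b
  map_rel_iff' := by
    intro u v
    rw [adj_iff, adj_iff]
    constructor
    · intro h
      have h2 : ∀ u v : Vt m k, Ed (act b u) (act b v) → Ed u v := by
        intro u v h
        have := Ed_act b _ _ h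
        rwa [act_act, act_act] at this
      exact h.imp (h2 _ _) (h2 _ _)
    · exact fun h => h.imp (Ed_act b _ _) (Ed_act b _ _)

@[simp] theorem actIso_apply (b : Fin m → Bool) (v : Vt m k) : actIso m k b v = act b v := rfl

/-- All neighbours of a vertex lie in an explicit set of at most three vertices. -/
def nb : Vt m k → Finset (Vt m k)
  | U p q α => {Y (k := k) p q α,
      if h : q.val + 1 < m then U (k := k) p ⟨q.val + 1, h⟩ α else Y (k := k) p q α,
      if h : 0 < q.val then U (k := k) p ⟨q.val - 1, by omega⟩ α else Y (k := k) p q α}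
  | Y p q α => if p < q then {U (k := k) p q α, O (k := k) p q α false, O (k := k) p q α true}
      else {U (k := k) p q α, O (k := k) q p false α, O (k := k) q p true α}
  | O p q α β => {Y (k := k) p q α, Y (k := k) q p β}
  | R _ => ∅

theorem nb_card (v : Vt m k) : (nb v).card ≤ 3 := by
  rcases v with ⟨p, q, α⟩ | ⟨p, q, α⟩ | ⟨p, q, α, β⟩ | i
  · exact Finset.card_le_three
  · simp only [nb]
    split_ifs <;> exact Finset.card_le_three
  · exact Finset.card_le_two.trans (by norm_num)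
  · simp [nb]

theorem mem_nb {u v : Vt m k} (h : (Gr m k).Adj u v) : v ∈ nb u := by
  rw [adj_iff] at h
  rcases u with ⟨p, q, α⟩ | ⟨p, q, α⟩ | ⟨p, q, α, β⟩ | i <;>
    rcases v with ⟨p', q', α'⟩ | ⟨p', q', α'⟩ | ⟨p', q', α', β'⟩ | j <;>
    simp only [Ed, or_false, false_or, or_self] at h
  · rcases h with ⟨rfl, h2, rfl⟩ | ⟨rfl, h2, rfl⟩
    · simp only [nb, Finset.mem_insert, Finset.mem_singleton]
      right; left
      have h3 : q.val + 1 < m := h2 ▸ q'.2
      rw [dif_pos h3]
      have : q' = ⟨q.val + 1, h3⟩ := Fin.ext h2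
      rw [this]
    · simp only [nb, Finset.mem_insert, Finset.mem_singleton]
      right; right
      rw [dif_pos (by omega)]
      exact congrArg (fun z => (Sum.inl (_, z, _) : Vt m k)) (Fin.ext (by simp only; omega))
  · obtain ⟨rfl, rfl, rfl⟩ := h
    simp [nb]
  · obtain ⟨rfl, rfl, rfl⟩ := h
    simp only [nb]
    split_ifs <;> simp
  · obtain ⟨h1, (⟨rfl, rfl, rfl⟩ | ⟨rfl, rfl, rfl⟩)⟩ := h
    · simp only [nb, if_pos h1]
      cases β' <;> simp
    · simp only [nb, if_neg (not_lt.2 h1.le)]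
      cases α' <;> simp
  · obtain ⟨h1, (⟨rfl, rfl, rfl⟩ | ⟨rfl, rfl, rfl⟩)⟩ := h <;> simp [nb]

theorem degree_le (v : Vt m k) [Fintype ((Gr m k).neighborSet v)] : (Gr m k).degree v ≤ 3 := by
  rw [← SimpleGraph.card_neighborFinset_eq_degree]
  refine (Finset.card_le_card ?_).trans (nb_card v)
  intro u hu
  rw [SimpleGraph.mem_neighborFinset] at hu
  exact mem_nb hu

/-- A colour preserving automorphism is given by a vector of bits. -/
theorem exists_bits (φ : Gr m k ≃g Gr m k) (hφ : ∀ v, col (φ v) = col v) :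
    ∃ b : Fin m → Bool, (∀ p q α, φ (U p q α) = U p q (xor α (b p))) ∧
      ∀ p q α β, p < q → φ (O p q α β) = O p q (xor α (b p)) (xor β (b q)) := by
  have hinj := φ.injective
  have hU : ∀ p q α, ∃ γ, φ (U p q α) = U p q γ := by
    intro p q α
    have h := hφ (U p q α)
    rcases h2 : φ (U p q α) with ⟨p', q', α'⟩ | ⟨p', q', α'⟩ | ⟨p', q', α', β'⟩ | j
    all_goals rw [h2] at h
    all_goals simp only [col, reduceCtorEq, Sum.inl.injEq, Prod.mk.injEq] at h
    obtain ⟨rfl, rfl⟩ := h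
    exact ⟨α', rfl⟩
  have hY : ∀ p q α, ∃ γ, φ (Y p q α) = Y p q γ := by
    intro p q α
    have h := hφ (Y p q α)
    rcases h2 : φ (Y p q α) with ⟨p', q', α'⟩ | ⟨p', q', α'⟩ | ⟨p', q', α', β'⟩ | j
    all_goals rw [h2] at h
    all_goals simp only [col, reduceCtorEq, Sum.inl.injEq, Sum.inr.injEq, Prod.mk.injEq] at h
    obtain ⟨rfl, rfl⟩ := h
    exact ⟨α', rfl⟩
  have hO : ∀ p q α β, ∃ γ δ, φ (O p q α β) = O p q γ δ := by
    intro p q α β
    have h := hφ (O p q α β)
    rcases h2 : φ (O p q α β) with ⟨p', q', α'⟩ | ⟨p', q', α'⟩ | ⟨p', q', α', β'⟩ | j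
    all_goals rw [h2] at h
    all_goals simp only [col, reduceCtorEq, Sum.inl.injEq, Sum.inr.injEq, Prod.mk.injEq] at h
    obtain ⟨rfl, rfl⟩ := h
    exact ⟨α', β', rfl⟩
  choose fU hfU using hU
  choose fY hfY using hY
  choose gO hO using hO
  choose hO' hhO using hO
  have hadj : ∀ u v, Ed u v → Ed (φ u) (φ v) ∨ Ed (φ v) (φ u) := by
    intro u v h
    rw [← adj_iff, φ.map_adj_iff, adj_iff]
    exact Or.inl h
  -- the two vertices of a pair have different images
  have hU2 : ∀ p q α, fU p q α = xor α (fU p q false) := by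
    intro p q α
    cases α
    · simp
    · have h : fU p q true ≠ fU p q false := by
        intro h
        have := hinj ((hfU p q true).trans ((congrArg (U p q) h).trans (hfU p q false).symm))
        simp at this
      revert h
      cases fU p q true <;> cases fU p q false <;> simp
  have hstep : ∀ p (q q' : Fin m), q'.val = q.val + 1 → fU p q false = fU p q' false := by
    intro p q q' h
    have := hadj (U p q false) (U p q' false) ⟨rfl, h, rfl⟩
    rw [hfU, hfU] at this
    simp only [Ed] at this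
    rcases this with h1 | h1
    · exact h1.2.2
    · exact h1.2.2.symm
  have hall : ∀ p (q : Fin m), fU p q false = fU p ⟨0, by have := p.2; omega⟩ false := by
    intro p q
    obtain ⟨n, hn⟩ := q
    induction n with
    | zero => rfl
    | succ n ih =>
      rw [← ih (by omega)]
      exact (hstep p ⟨n, by omega⟩ ⟨n + 1, hn⟩ rfl).symm
  let b : Fin m → Bool := fun p => fU p ⟨0, by have := p.2; omega⟩ false
  have hUb : ∀ p q α, fU p q α = xor α (b p) := by
    intro p q α
    rw [hU2, hall]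
  have hYb : ∀ p q α, fY p q α = xor α (b p) := by
    intro p q α
    have := hadj (U p q α) (Y p q α) ⟨rfl, rfl, rfl⟩
    rw [hfU, hfY] at this
    simp only [Ed, or_false] at this
    rw [← hUb p q α, this.2.2]
  refine ⟨b, fun p q α => by rw [hfU, hUb], fun p q α β hpq => ?_⟩
  rw [hhO]
  have h1 := hadj (Y p q α) (O p q α β) ⟨hpq, Or.inl ⟨rfl, rfl, rfl⟩⟩
  have h2 := hadj (Y q p β) (O p q α β) ⟨hpq, Or.inr ⟨rfl, rfl, rfl⟩⟩
  rw [hfY, hhO] at h1 h2
  simp only [Ed, or_false, hYb] at h1 h2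
  have h3 : gO p q α β = xor α (b p) := by
    rcases h1.2 with h | h
    · exact h.2.2.symm
    · exact absurd h.1 hpq.ne
  have h4 : hO' p q α β = xor β (b q) := by
    rcases h2.2 with h | h
    · exact absurd h.1 hpq.ne'
    · exact h.2.2.symm
  rw [h3, h4]

end Pool.Agent.Hhelper69.AutXC
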