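import Mathlib
import Pool.Agent.Lib.ExtComplexity
import Pool.Agent.Hhelper69.AutXC.Graph

/-!
# The lower bound for the automorphism polytope
-/

namespace Pool.Agent.Hhelper69.AutXC

open Pool.Agent.Lib.ExtComplexity

variable {m k : ℕ}

/-- The 0/1 matrix of a map. -/
def mat {V : Type} [DecidableEq V] (φ : V → V) : V × V → ℝ :=
  fun e => if φ e.1 = e.2 then 1 else 0

theorem mat_sum {V : Type} [DecidableEq V] [Fintype V] (φ : V → V) (u v : V) :
    ∑ e : V × V, (if e = (u, v) then (1 : ℝ) else 0) * mat φ e = if φ u = v then 1 else 0 := by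
  rw [Finset.sum_eq_single (u, v)]
  · simp [mat]
  · intro e _ he
    rw [if_neg he, zero_mul]
  · simp

/-- The functional without the penalty, evaluated at a matrix. -/
noncomputable def lin (a : Finset (Fin m)) : Vt m k × Vt m k → ℝ := fun e =>
  (∑ p ∈ a, if e = (U p p false, U p p true) then (1 : ℝ) else 0) -
    2 * (∑ p ∈ a, ∑ q ∈ a, if p < q then
      (if e = (O p q false false, O p q true true) then (1 : ℝ) else 0) else 0)

/-- The penalty. -/
noncomputable def pen (m k : ℕ) : Vt m k × Vt m k → ℝ := fun e =>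
  if col e.2 = col e.1 then 0 else 1

/-- The functional. -/
noncomputable def fn (a : Finset (Fin m)) : Vt m k × Vt m k → ℝ := fun e =>
  lin a e - m * pen m k e

theorem sum_lin (a : Finset (Fin m)) (φ : Vt m k → Vt m k) :
    ∑ e, lin a e * mat φ e =
      (∑ p ∈ a, if φ (U p p false) = U p p true then (1 : ℝ) else 0) -
      2 * (∑ p ∈ a, ∑ q ∈ a, if p < q then
        (if φ (O p q false false) = O p q true true then (1 : ℝ) else 0) else 0) := by
  have h1 : ∀ e : Vt m k × Vt m k, lin a e * mat φ e =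
      (∑ p ∈ a, (if e = (U p p false, U p p true) then (1 : ℝ) else 0) * mat φ e) -
      2 * (∑ p ∈ a, ∑ q ∈ a, if p < q then
        (if e = (O p q false false, O p q true true) then (1 : ℝ) else 0) * mat φ e else 0) := by
    intro e
    rw [lin, sub_mul, Finset.sum_mul, mul_assoc, Finset.sum_mul]
    congr 2
    refine Finset.sum_congr rfl fun p _ => ?_
    rw [Finset.sum_mul]
    refine Finset.sum_congr rfl fun q _ => ?_
    rw [ite_mul, zero_mul]
  simp_rw [h1]
  rw [Finset.sum_sub_distrib, Finset.sum_comm, ← Finset.mul_sum, Finset.sum_comm (s := Finset.univ)]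
  congr 1
  · exact Finset.sum_congr rfl fun p _ => mat_sum φ _ _
  · congr 1
    refine Finset.sum_congr rfl fun p _ => ?_
    rw [Finset.sum_comm]
    refine Finset.sum_congr rfl fun q _ => ?_
    by_cases h : p < q
    · simp only [if_pos h]
      exact mat_sum φ _ _
    · simp only [if_neg h, Finset.sum_const_zero]

theorem sum_pen (φ : Vt m k → Vt m k) :
    ∑ e, pen m k e * mat φ e = ∑ v, if col (φ v) = col v then (0 : ℝ) else 1 := by
  rw [Fintype.sum_prod_type]
  refine Finset.sum_congr rfl fun v _ => ?_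
  rw [Finset.sum_eq_single (φ v)]
  · simp [pen, mat]
  · intro w _ hw
    simp [mat, Ne.symm hw]
  · simp

theorem sq_sum {s : Finset (Fin m)} (f : Fin m → ℝ) :
    (∑ p ∈ s, f p) ^ 2 = (∑ p ∈ s, f p ^ 2) +
      2 * ∑ p ∈ s, ∑ q ∈ s, if p < q then f p * f q else 0 := by
  have h1 : (∑ p ∈ s, f p) ^ 2 = ∑ p ∈ s, ∑ q ∈ s, f p * f q := by
    rw [sq, Finset.sum_mul_sum]
  have h2 : ∀ p ∈ s, ∑ q ∈ s, f p * f q = (f p ^ 2 +
      (∑ q ∈ s, if p < q then f p * f q else 0)) + ∑ q ∈ s, if q < p then f q * f p else 0 := by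
    intro p hp
    have : f p ^ 2 = ∑ q ∈ s, if p = q then f p * f q else 0 := by
      rw [Finset.sum_ite_eq, if_pos hp, sq]
    rw [this, ← Finset.sum_add_distrib, ← Finset.sum_add_distrib]
    refine Finset.sum_congr rfl fun q _ => ?_
    rcases lt_trichotomy p q with h | h | h
    · simp [h, h.ne, not_lt.2 h.le]
    · simp [h]
    · simp [h, h.ne', not_lt.2 h.le, mul_comm]
  rw [h1, Finset.sum_congr rfl h2, Finset.sum_add_distrib, Finset.sum_add_distrib]
  rw [Finset.sum_comm (f := fun p q => if q < p then f q * f p else 0)]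
  ring

/-- Value at a colour preserving automorphism. -/
theorem value_bits (a : Finset (Fin m)) (φ : Vt m k → Vt m k) (b : Fin m → Bool)
    (hU : ∀ p, φ (U p p false) = U p p (b p))
    (hO : ∀ p q, p < q → φ (O p q false false) = O p q (b p) (b q))
    (hc : ∀ v, col (φ v) = col v) :
    1 - ∑ e, fn a e * mat φ e = (1 - ((a.filter fun p => b p = true).card : ℝ)) ^ 2 := by
  have h0 : ∑ e, fn a e * mat φ e =
      (∑ e, lin a e * mat φ e) - m * ∑ e, pen m k e * mat φ e := by
    rw [Finset.mul_sum, ← Finset.sum_sub_distrib]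
    exact Finset.sum_congr rfl fun e _ => by rw [fn]; ring
  rw [h0, sum_lin, sum_pen]
  have hp : ∑ v : Vt m k, (if col (φ v) = col v then (0 : ℝ) else 1) = 0 :=
    Finset.sum_eq_zero fun v _ => by rw [if_pos (hc v)]
  rw [hp]
  let f : Fin m → ℝ := fun p => if b p = true then 1 else 0
  have e1 : (∑ p ∈ a, if φ (U p p false) = U p p true then (1 : ℝ) else 0) = ∑ p ∈ a, f p := by
    refine Finset.sum_congr rfl fun p _ => ?_
    rw [hU]
    simp [f]
  have e2 : (∑ p ∈ a, ∑ q ∈ a, if p < q then
      (if φ (O p q false false) = O p q true true then (1 : ℝ) else 0) else 0) =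
      ∑ p ∈ a, ∑ q ∈ a, if p < q then f p * f q else 0 := by
    refine Finset.sum_congr rfl fun p _ => Finset.sum_congr rfl fun q _ => ?_
    by_cases h : p < q
    · rw [if_pos h, if_pos h, hO p q h]
      by_cases h1 : b p = true <;> by_cases h2 : b q = true <;> simp [f, h1, h2]
    · rw [if_neg h, if_neg h]
  have e3 : (((a.filter fun p => b p = true).card : ℕ) : ℝ) = ∑ p ∈ a, f p := by
    simp [f, Finset.sum_ite]
  have e4 : ∑ p ∈ a, f p ^ 2 = ∑ p ∈ a, f p :=
    Finset.sum_congr rfl fun p _ => by by_cases h : b p = true <;> simp [f, h]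
  rw [e1, e2, e3]
  have := sq_sum (s := a) f
  rw [e4] at this
  nlinarith [this]

/-- Value at an arbitrary automorphism. -/
theorem value_nonneg (a : Finset (Fin m)) (φ : Gr m k ≃g Gr m k) :
    ∑ e, fn a e * mat φ e ≤ 1 := by
  by_cases hc : ∀ v, col (φ v) = col v
  · obtain ⟨b, hU, hO⟩ := exists_bits φ hc
    have := value_bits a φ b (fun p => by simpa using hU p p false)
      (fun p q h => by simpa using hO p q false false h) hc
    have h2 : 0 ≤ (1 - ((a.filter fun p => b p = true).card : ℝ)) ^ 2 := sq_nonneg _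
    linarith
  · have h0 : ∑ e, fn a e * mat φ e =
        (∑ e, lin a e * mat φ e) - m * ∑ e, pen m k e * mat φ e := by
      rw [Finset.mul_sum, ← Finset.sum_sub_distrib]
      exact Finset.sum_congr rfl fun e _ => by rw [fn]; ring
    rw [h0, sum_lin, sum_pen]
    push Not at hc
    obtain ⟨v, hv⟩ := hc
    have h1 : (1 : ℝ) ≤ ∑ v : Vt m k, (if col (φ v) = col v then (0 : ℝ) else 1) := by
      refine le_trans ?_ (Finset.single_le_sum (f := fun v : Vt m k =>
        if col (φ v) = col v then (0 : ℝ) else 1) (fun w _ => ?_) (Finset.mem_univ v))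
      · simp [hv]
      · split_ifs <;> norm_num
    have h2 : (∑ p ∈ a, if φ (U p p false) = U p p true then (1 : ℝ) else 0) ≤ m := by
      refine (Finset.sum_le_sum (g := fun _ => (1 : ℝ)) fun p _ => ?_).trans ?_
      · split_ifs <;> norm_num
      · rw [Finset.sum_const, nsmul_eq_mul, mul_one]
        have := Finset.card_le_univ a
        rw [Fintype.card_fin] at this
        exact_mod_cast this
    have h3 : 0 ≤ ∑ p ∈ a, ∑ q ∈ a, if p < q then
        (if φ (O p q false false) = O p q true true then (1 : ℝ) else 0) else 0 :=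
      Finset.sum_nonneg fun p _ => Finset.sum_nonneg fun q _ => by
        split_ifs <;> norm_num
    have h4 : (m : ℝ) ≤ m * ∑ v : Vt m k, (if col (φ v) = col v then (0 : ℝ) else 1) :=
      le_mul_of_one_le_right (Nat.cast_nonneg m) h1
    linarith

theorem valid {V : Type} [Fintype V] [DecidableEq V] (G : SimpleGraph V) (w : V × V → ℝ) (β : ℝ)
    (h : ∀ φ : G ≃g G, ∑ e, w e * mat φ e ≤ β) :
    ∀ y ∈ autPolytope G, ∑ e, w e * y e ≤ β := by
  intro y hy
  have hconv : Convex ℝ {y : V × V → ℝ | ∑ e, w e * y e ≤ β} := by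
    have : {y : V × V → ℝ | ∑ e, w e * y e ≤ β} =
        {y | (∑ e, w e • (LinearMap.proj e : (V × V → ℝ) →ₗ[ℝ] ℝ)) y ≤ β} := by
      ext y
      simp
    rw [this]
    exact convex_halfSpace_le (LinearMap.isLinear _) β
  refine convexHull_min ?_ hconv hy
  rintro x ⟨φ, rfl⟩
  exact h φ

theorem lower (m k r : ℕ) (h : HasEF (autPolytope (Gr m k)) r) : (3 / 2 : ℝ) ^ m ≤ r + 1 := by
  classical
  refine xc_lower h (fun b => mat (act fun p => decide (p ∈ b))) (fun b => ?_)
    (fun a => fn a) (fun _ => 1) (fun a => ?_) (fun a b => ?_)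
  · exact subset_convexHull ℝ _ ⟨actIso m k (fun p => decide (p ∈ b)), rfl⟩
  · exact valid _ _ _ fun φ => value_nonneg a φ
  · have := value_bits (k := k) a (act fun p => decide (p ∈ b)) (fun p => decide (p ∈ b))
      (fun p => by simp [act]) (fun p q _ => by simp [act]) (fun v => by
        rcases v with ⟨p, q, α⟩ | ⟨p, q, α⟩ | ⟨p, q, α, β⟩ | i <;> rfl)
    rw [this]
    congr 3
    simp [Finset.filter_mem_eq_inter]

end Pool.Agent.Hhelper69.AutXC
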